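import Mathlib
import Pool.Agent.H19.RPDefs
import Pool.Agent.H23.KC.NDefs
import Pool.Agent.H23.KC.Below
import Pool.Agent.H23.KC.BelowN
import Pool.Agent.H23.KC.Narrow
import Pool.Agent.H23.KC.Stair

/-!
MP_39270e_co: below `k = 2 ^ r` the cover number is linearly larger than `r`, and upper bounds.

Edges and transversals of an r-partite r-graph are functions `Fin r → ℕ` (one vertex in
each part); `IntersectinglyCovered k H` and `tau H` are defined in `Pool.Agent.H19.RPDefs`,
`NarrowCovered q y k H` (the assigned transversals use at most `q` vertices in each of `y` parts)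
in `Pool.Agent.H23.KC.NDefs`.
-/

namespace Pool.Agent.Results.MP_39270e_co.BelowTop

open H19RP H23KC

/-- (1) If `k * C(r / 2 + 1 + y, y) < C(r, r / 2 + 1)` (with `r / 2` rounded down), then some
`k`-intersectingly covered `r`-partite `r`-graph has cover number at least `r + 2 y + 2`.
(2) For every `0 ≤ c < 2` there are `δ > 0` and `R` such that for all `r ≥ R` and `k ≤ c ^ r` some
`k`-intersectingly covered `r`-partite `r`-graph has cover number at least `(1 + δ) r`.
In (1) and (2) the assigned transversals use two vertices of each part.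
(3) If `(4 r ^ 2) ^ m * (m + 1) ^ r < k ^ m`, every `k`-intersectingly covered `r`-partite `r`-graph
has cover number at most `m r`.
(4) If there are `y` parts in each of which the assigned transversals use at most `q` vertices and
`(4 r ^ 2) ^ m * (m + 1) ^ (r - y) < k ^ m`, the cover number is at most `m (r - y) + q y`. -/
theorem result :
    (∀ r y k : ℕ, 1 ≤ r → k * (r / 2 + 1 + y).choose y < r.choose (r / 2 + 1) →
      ∃ H : Finset (Fin r → ℕ), NarrowCovered 2 r k H ∧ r + 2 * y + 2 ≤ tau H) ∧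
    (∀ c : ℝ, 0 ≤ c → c < 2 → ∃ δ : ℝ, 0 < δ ∧ ∃ R : ℕ, ∀ r k : ℕ, R ≤ r → (k : ℝ) ≤ c ^ r →
      ∃ H : Finset (Fin r → ℕ), NarrowCovered 2 r k H ∧ (1 + δ) * r ≤ tau H) ∧
    (∀ r m k : ℕ, 1 ≤ r → 1 ≤ m → (4 * r ^ 2) ^ m * (m + 1) ^ r < k ^ m →
      ∀ H : Finset (Fin r → ℕ), IntersectinglyCovered k H → tau H ≤ m * r) ∧
    (∀ r m q y k : ℕ, 1 ≤ m → (4 * r ^ 2) ^ m * (m + 1) ^ (r - y) < k ^ m →
      ∀ H : Finset (Fin r → ℕ), NarrowCovered q y k H → tau H ≤ m * (r - y) + q * y) :=
  ⟨fun _ y k hr hk => layer_narrow hr y k hk, below_narrow, fun _ _ _ hr hm hk H hH => by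
    obtain ⟨C, hC⟩ := hH
    exact stair hr hm hk H fun S hS hSk => ⟨C S, (hC S hS hSk).1⟩,
    fun _ _ _ _ _ hm hk H hH => narrow_upper hm hk H hH⟩

end Pool.Agent.Results.MP_39270e_co.BelowTop
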