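import Mathlib
import Pool.Agent.H19.RPDefs
import Pool.Agent.H23.A1.Fin
import Pool.Agent.H23.A1.Upp
import Pool.Agent.H23.A1.Win

/-!
MP_39270e_co: the lower bound `f_r(k) ≥ c min (r^2) ((r^2 / l) (1 + log log (3 + r / l)))`, `l = 1 + log (k / r)`, for all
`k ≥ r ≥ 2`, and the exact order `f_r(k) = Θ(r^2)` for `r ≤ k ≤ r (log r)^C`.

Edges and transversals of an r-partite r-graph are functions `Fin r → ℕ` (one vertex in
each part); `IntersectinglyCovered k H` and `tau H` are defined in `Pool.Agent.H19.RPDefs`.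
-/

namespace Pool.Agent.Results.MP_39270e_co.ExactOrderWindow

open H19RP

/-- (1) There is an absolute constant `c > 0` such that for all `2 ≤ r ≤ k`, with `l = 1 + log (k / r)`, some
`k`-intersectingly covered `r`-partite `r`-graph `H` has `tau H ≥ c * min (r^2) (r^2 / l * (1 + log log (3 + r / l)))`.
(2) For every real `C` there is `c > 0` such that for all `3 ≤ r ≤ k ≤ r (log r)^C` some `k`-intersectingly covered
`r`-partite `r`-graph has `tau H ≥ c * r^2`, and every one has `tau H ≤ r^2`. -/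
theorem result :
    (∃ c : ℝ, 0 < c ∧ ∀ r k : ℕ, 2 ≤ r → r ≤ k → ∀ l : ℝ, l = 1 + Real.log (k / r) →
      ∃ H : Finset (Fin r → ℕ), IntersectinglyCovered k H ∧
        c * min ((r : ℝ) ^ 2) ((r : ℝ) ^ 2 / l * (1 + Real.log (Real.log (3 + r / l)))) ≤ tau H) ∧
    (∀ C : ℝ, ∃ c : ℝ, 0 < c ∧ ∀ r k : ℕ, 3 ≤ r → r ≤ k → (k : ℝ) ≤ r * Real.log r ^ C →
      (∃ H : Finset (Fin r → ℕ), IntersectinglyCovered k H ∧ c * (r : ℝ) ^ 2 ≤ tau H) ∧
      ∀ H : Finset (Fin r → ℕ), IntersectinglyCovered k H → (tau H : ℝ) ≤ (r : ℝ) ^ 2) := by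
  obtain ⟨c, hc, hlow⟩ := H23A1.final_lower
  refine ⟨⟨c, hc, ?_⟩, ?_⟩
  · intro r k hr hrk l hl
    subst hl
    obtain ⟨H, hH, ht⟩ := hlow r k hr hrk
    refine ⟨H, hH, le_trans (le_of_eq ?_) ht⟩
    have hr0 : (0 : ℝ) < r := by exact_mod_cast (by omega : 0 < r)
    have hkr : (1 : ℝ) ≤ (k : ℝ) / r := by
      rw [le_div_iff₀ hr0, one_mul]; exact_mod_cast hrk
    have hl0 : 0 < 1 + Real.log ((k : ℝ) / r) := by
      have := Real.log_nonneg hkr; linarith
    rw [mul_assoc c, mul_min_of_nonneg _ _ (by positivity : (0 : ℝ) ≤ (r : ℝ) ^ 2 /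
      (1 + Real.log ((k : ℝ) / r))), div_mul_cancel₀ _ hl0.ne']
  · intro C
    obtain ⟨c', hc', hwin⟩ := H23A1.window C
    refine ⟨c * c', mul_pos hc hc', ?_⟩
    intro r k hr hrk hk
    refine ⟨?_, ?_⟩
    · obtain ⟨H, hH, ht⟩ := hlow r k (by omega) hrk
      refine ⟨H, hH, le_trans ?_ ht⟩
      rw [mul_assoc, mul_assoc]
      exact mul_le_mul_of_nonneg_left (hwin r k hr hrk hk) hc.le
    · intro H hH
      exact_mod_cast H23A1.trivial_upper r k hrk H hH

end Pool.Agent.Results.MP_39270e_co.ExactOrderWindow
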