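import Mathlib
import Pool.Agent.H19.RPDefs
import Pool.Agent.H23.KC.Ballot
import Pool.Agent.H23.KC.Defs
import Pool.Agent.H23.KC.Main
import Pool.Agent.H23.KC.NDefs
import Pool.Agent.H23.KC.Small
import Pool.Agent.H23.KC.TopN
import Pool.Agent.H23.KC.Trans

/-!
MP_39270e_co: `f_r(k) = r` for all `k ≥ 2 ^ (r - 1)`; this range of `k` is exact for
`2 ≤ r ≤ 5`; for `r ≥ 4` one has `f_r(k) ≥ r + 1` for all `k ≤ layers r`, already with assigned
transversals that use two vertices in each part, and for those systems the order `2 ^ r / √ r` of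
`layers r` is the right one; `f_3(3) = 4`.

Edges and transversals of an r-partite r-graph are functions `Fin r → ℕ` (one vertex in
each part); `IntersectinglyCovered k H` and `tau H` are defined in `Pool.Agent.H19.RPDefs`,
`NarrowCovered 2 r k H` (the assigned transversals use at most two vertices in each part) in
`Pool.Agent.H23.KC.NDefs`.
-/

namespace Pool.Agent.Results.MP_39270e_co.TopRange

open H19RP H23KC

/-- (1) For `r ≥ 1` and `k ≥ 2 ^ (r - 1)` the greatest cover number of a `k`-intersectingly covered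
`r`-partite `r`-graph is `r`; indeed some edge of such a graph meets all its edges.
(2) For `r ≥ 1` and `k < 2 ^ (r - 1)` some `k`-intersectingly covered `r`-partite `r`-graph is covered
by no transversal.
(3) For `2 ≤ r ≤ 5` and `k < 2 ^ (r - 1)` some `k`-intersectingly covered `r`-partite `r`-graph has
cover number at least `r + 1`, and the assigned transversals use at most two vertices in each part.
(4) The same holds for all `r ≥ 4` and `k ≤ layers r`.
(5) If the assigned transversals use at most two vertices in each part and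
`k ≥ 4 C(r - y, (r - y) / 2)` (rounded down), the cover number is at most `r + y`.
(6) The greatest cover number of a `3`-intersectingly covered `3`-partite `3`-graph is `4`.
(7) For `k < r` the cover numbers of `k`-intersectingly covered `r`-partite `r`-graphs are not
bounded. -/
theorem result :
    (∀ r k : ℕ, 1 ≤ r → 2 ^ (r - 1) ≤ k →
      IsGreatest {t | ∃ H : Finset (Fin r → ℕ), IntersectinglyCovered k H ∧ tau H = t} r ∧
      ∀ H : Finset (Fin r → ℕ), IntersectinglyCovered k H → ∃ c ∈ H, ∀ e ∈ H, Meets c e) ∧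
    (∀ r k : ℕ, 1 ≤ r → k < 2 ^ (r - 1) →
      ∃ H : Finset (Fin r → ℕ), IntersectinglyCovered k H ∧
        ∀ T : Fin r → ℕ, ∃ e ∈ H, ¬ Meets T e) ∧
    (∀ r k : ℕ, 2 ≤ r → r ≤ 5 → k < 2 ^ (r - 1) →
      ∃ H : Finset (Fin r → ℕ), NarrowCovered 2 r k H ∧ r + 1 ≤ tau H) ∧
    (∀ r k : ℕ, 4 ≤ r → k ≤ layers r →
      ∃ H : Finset (Fin r → ℕ), NarrowCovered 2 r k H ∧ r + 1 ≤ tau H) ∧
    (∀ r y k : ℕ, 4 * (r - y).choose ((r - y) / 2) ≤ k →
      ∀ H : Finset (Fin r → ℕ), NarrowCovered 2 r k H → tau H ≤ r + y) ∧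
    IsGreatest {t | ∃ H : Finset (Fin 3 → ℕ), IntersectinglyCovered 3 H ∧ tau H = t} 4 ∧
    (∀ r k t : ℕ, k < r →
      ∃ H : Finset (Fin r → ℕ), IntersectinglyCovered k H ∧ t ≤ tau H) := by
  refine ⟨fun r k hr hk => ?_, fun r k hr hk => no_transversal hr hk,
    fun r k h2 h5 hk => lower_small_narrow h2 h5 hk, fun r k h4 hk => lower_three_narrow h4 hk,
    fun r y k hk H hH => two_upper hk H hH, ⟨?_, ?_⟩, fun r k t hk => unbounded hk t⟩
  rotate_left
  · obtain ⟨H, hH, h4⟩ := lower_small (r := 3) (by norm_num) (by norm_num) (k := 3) (by norm_num)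
    exact ⟨H, hH, le_antisymm (three_three H hH) h4⟩
  · rintro t ⟨H, hH, rfl⟩
    exact three_three H hH
  have h2k : 2 ^ r ≤ 2 * k := by
    calc 2 ^ r = 2 * 2 ^ (r - 1) := by
          rw [← pow_succ', Nat.sub_add_cancel hr]
      _ ≤ 2 * k := Nat.mul_le_mul_left 2 hk
  refine ⟨⟨exists_tau_eq hr k, ?_⟩, fun H hH => exists_edge_cover k h2k H hH⟩
  rintro t ⟨H, hH, rfl⟩
  obtain ⟨c, -, hc⟩ := exists_edge_cover k h2k H hH
  exact tau_le_of_edge H c hc

end Pool.Agent.Results.MP_39270e_co.TopRange
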