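import Mathlib
import Pool.Agent.H19.RPDefs
import Pool.Agent.H19.RPUpperMain

/-!
MP_39270e_co: `f_r(k) ≤ 15 (r^2 / log k) (1 + log (r / log k))` for `k > r` and `log k ≤ r`.

Edges and transversals of an r-partite r-graph are functions `Fin r → ℕ` (one vertex in
each part); `IntersectinglyCovered k H` and `tau H` are defined in `Pool.Agent.H19.RPDefs`.
-/

namespace Pool.Agent.Results.MP_39270e_co.UpperBound

open H19RP

/-- Every `k`-intersectingly covered `r`-partite `r`-graph `H` with `r < k` and `log k ≤ r`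
has `tau H ≤ 15 * (r^2 / log k) * (1 + log (r / log k))`. -/
theorem result : ∀ r k : ℕ, 1 ≤ r → r < k → Real.log k ≤ r →
    ∀ H : Finset (Fin r → ℕ), IntersectinglyCovered k H →
      (tau H : ℝ) ≤ 15 * ((r : ℝ) ^ 2 / Real.log k) * (1 + Real.log ((r : ℝ) / Real.log k)) :=
  upper_main

end Pool.Agent.Results.MP_39270e_co.UpperBound
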